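import Pool.Agent.W187.WQ.Stmts5
import Pool.Agent.W586.WP.Link

/-!
WQ project (owner helper187): the explicit formula for an autocorrelation, several primes.
-/

open Complex MeasureTheory Set
open Pool.Agent.W187.WP Pool.Agent.W187.WQ
open Pool.Agent.W586.WP

namespace Pool.Agent.W366.WQ

theorem aQN {f : ℝ → ℝ} {a : ℝ} (ha : 0 < a) (M : ℕ) :
    a * QN M a (fun x => f (a * x)) =
      -(Real.eulerMascheroniConstant + Real.log (4 * Real.pi * a)) * GG f 0
      + (∫ v in (0 : ℝ)..(2 * a), (GG f 0 / v - Real.exp (v / 2) / Real.sinh v * GG f v))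
      - (∑ n ∈ Finset.range (M + 1), 2 * (ArithmeticFunction.vonMangoldt n / Real.sqrt n) *
          GG f (Real.log n))
      + 2 * (a ^ 2 * ((∫ x in (-1 : ℝ)..1, f (a * x) * Real.cosh (a * x / 2)) ^ 2 -
        (∫ x in (-1 : ℝ)..1, f (a * x) * Real.sinh (a * x / 2)) ^ 2)) := by
  have h1 : (∫ s in (0 : ℝ)..2, (GG (fun x => f (a * x)) 0 / s -
      a * Real.exp (a * s / 2) / Real.sinh (a * s) * GG (fun x => f (a * x)) s)) =
      a⁻¹ * ∫ v in (0 : ℝ)..(2 * a), (GG f 0 / v - Real.exp (v / 2) / Real.sinh v * GG f v) := by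
    have h := intervalIntegral.integral_comp_mul_left (a := 0) (b := 2)
      (fun v => GG f 0 / v - Real.exp (v / 2) / Real.sinh v * GG f v) ha.ne'
    rw [mul_zero, smul_eq_mul, mul_comm a 2] at h
    rw [← h]
    congr 1
    ext s
    rw [GG_scale ha, GG_scale ha, mul_zero]
    simp only [div_eq_mul_inv, mul_inv]
    have : a * a⁻¹ = 1 := mul_inv_cancel₀ ha.ne'
    linear_combination (-(Real.exp (a * s * 2⁻¹) * (Real.sinh (a * s))⁻¹ * GG f (a * s))) * this
  have h2 : (∑ n ∈ Finset.range (M + 1), 2 * (ArithmeticFunction.vonMangoldt n / Real.sqrt n) *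
      GG (fun x => f (a * x)) (Real.log n / a)) =
      a⁻¹ * ∑ n ∈ Finset.range (M + 1), 2 * (ArithmeticFunction.vonMangoldt n / Real.sqrt n) *
        GG f (Real.log n) := by
    rw [Finset.mul_sum]
    refine Finset.sum_congr rfl fun n _ => ?_
    rw [GG_scale ha, mul_div_cancel₀ _ ha.ne']
    ring
  unfold QN
  rw [h1, h2, GG_scale ha, mul_zero]
  have : a * a⁻¹ = 1 := mul_inv_cancel₀ ha.ne'
  linear_combination (-(Real.eulerMascheroniConstant + Real.log (4 * Real.pi * a)) * GG f 0 +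
    (∫ v in (0 : ℝ)..(2 * a), (GG f 0 / v - Real.exp (v / 2) / Real.sinh v * GG f v)) -
    ∑ n ∈ Finset.range (M + 1), 2 * (ArithmeticFunction.vonMangoldt n / Real.sqrt n) *
          GG f (Real.log n)) * this

theorem linkg : S_AR → S_LINKg := by
  intro hAR M f a ha hf hf0 h3
  have hg := GG_contDiff hf hf0
  have hev := GG_neg f
  have e1 : (∫ v in Ioi (0 : ℝ), (((GG f v : ℝ) : ℂ) + ((GG f (-v) : ℝ) : ℂ)) *
      ((Real.exp (v / 2) : ℝ) : ℂ)) =
      ((2 * ∫ v in Ioi (0 : ℝ), GG f v * Real.exp (v / 2) : ℝ) : ℂ) := by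
    rw [← integral_const_mul, ← integral_complex_ofReal]
    congr 1
    ext v
    rw [hev]
    push_cast
    ring
  have e2 : (∑' n : ℕ, ((ArithmeticFunction.vonMangoldt n / Real.sqrt n : ℝ) : ℂ) *
      (((GG f (Real.log n) : ℝ) : ℂ) + ((GG f (-Real.log n) : ℝ) : ℂ))) =
      ((∑ n ∈ Finset.range (M + 1), 2 * (ArithmeticFunction.vonMangoldt n / Real.sqrt n) *
          GG f (Real.log n) : ℝ) : ℂ) := by
    rw [tsum_eq_sum (s := Finset.range (M + 1))]
    · rw [Complex.ofReal_sum]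
      refine Finset.sum_congr rfl fun n _ => ?_
      rw [hev]
      push_cast
      ring
    · intro n hn
      have h : M + 1 ≤ n := by
        rw [Finset.mem_range] at hn
        omega
      have h' : ((M : ℝ) + 1) ≤ n := by exact_mod_cast h
      have : Real.log ((M : ℝ) + 1) ≤ Real.log n := Real.log_le_log (by positivity) h'
      rw [hev, h3 _ this]
      simp
  have e3 : (∑' n : ℕ, (((GG f 0 : ℝ) : ℂ) / ((n : ℂ) + 1) - ∫ v in Ioi (0 : ℝ),
      (((GG f v : ℝ) : ℂ) + ((GG f (-v) : ℝ) : ℂ)) *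
      ((Real.exp (-(2 * ((n : ℝ) + 1) + 1 / 2) * v) : ℝ) : ℂ))) =
      ((∑' n : ℕ, (GG f 0 / ((n : ℝ) + 1) - 2 * ∫ v in Ioi (0 : ℝ), GG f v *
      Real.exp (-(2 * ((n : ℝ) + 1) + 1 / 2) * v)) : ℝ) : ℂ) := by
    rw [Complex.ofReal_tsum]
    congr 1
    ext n
    have : (∫ v in Ioi (0 : ℝ),
      (((GG f v : ℝ) : ℂ) + ((GG f (-v) : ℝ) : ℂ)) *
      ((Real.exp (-(2 * ((n : ℝ) + 1) + 1 / 2) * v) : ℝ) : ℂ)) =
      ((2 * ∫ v in Ioi (0 : ℝ), GG f v *
        Real.exp (-(2 * ((n : ℝ) + 1) + 1 / 2) * v) : ℝ) : ℂ) := by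
      rw [← integral_const_mul, ← integral_complex_ofReal]
      congr 1
      ext v
      rw [hev]
      push_cast
      ring
    rw [this]
    push_cast
    ring
  have e4 := hAR (GG f) (2 * a) (by linarith) (hg.of_le (by norm_num)) (fun v hv => GG_zero hf0 v hv)
  unfold WW
  rw [e1, e2, e3, aQN ha M]
  have e5 := half hf hf0
  rw [CS ha hf hf0] at e5
  have e6 : Real.log (4 * Real.pi * a) = Real.log Real.pi + Real.log (2 * (2 * a)) := by
    rw [← Real.log_mul Real.pi_ne_zero (by positivity)]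
    congr 1
    ring
  rw [← Complex.ofReal_mul, ← Complex.ofReal_sub, ← Complex.ofReal_sub, ← Complex.ofReal_add,
    Complex.ofReal_inj, e6]
  linear_combination e4 + 2 * e5

end Pool.Agent.W366.WQ
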